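import Pool.Agent.Q295.BZ.Stm

/-!
# Project BZ: modification of the Brownian motion on the null set of eternal survival
-/

set_option autoImplicit false

open MeasureTheory ProbabilityTheory Set Filter
open scoped NNReal ENNReal Topology Real

universe u

namespace Q121.BZ

open Pool.Agent.Q295.BZ
open Pool.Agent.Helper807.BS (tt)

/-- a Brownian motion may be replaced by a fixed continuous path on a null set -/
theorem cb_modify {Ω : Type u} [mΩ : MeasurableSpace Ω] (P : Measure Ω) [IsProbabilityMeasure P]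
    (F : ℝ → MeasurableSpace Ω)
    (W : ℝ → Ω → ℝ) (hW : CB P F W) (N : Set Ω) (hN : MeasurableSet[mΩ] N) (hP : P N = 0)
    (w : ℝ → ℝ) (hw : Continuous w) (W' : ℝ → Ω → ℝ)
    (h1 : ∀ t ω, ω ∈ N → W' t ω = w t) (h2 : ∀ t ω, ω ∉ N → W' t ω = W t ω) :
    CB P F W' ∧ ∀ (t : ℝ), ∀ᵐ ω ∂P, W' t ω = W t ω := by
  classical
  have hae : ∀ t, ∀ᵐ ω ∂P, W' t ω = W t ω := by
    intro t
    filter_upwards [measure_eq_zero_iff_ae_notMem.1 hP] with ω hω using h2 t ω hω
  have hincr : ∀ s t, (fun ω => W' t ω - W' s ω) =ᵐ[P] (fun ω => W t ω - W s ω) := by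
    intro s t
    filter_upwards [hae s, hae t] with ω e1 e2
    rw [e1, e2]
  have heq : ∀ t, W' t = fun ω => if ω ∈ N then w t else W t ω := by
    intro t
    funext ω
    by_cases hω : ω ∈ N
    · rw [if_pos hω, h1 t ω hω]
    · rw [if_neg hω, h2 t ω hω]
  refine ⟨⟨hW.mono, hW.le, ?_, ?_, ?_, ?_, hW.null⟩, hae⟩
  · intro t ht
    rw [heq]
    refine Measurable.ite ?_ measurable_const (hW.adapted t ht)
    exact hW.mono 0 t ht N (hW.null N hN hP)
  · intro ω
    by_cases hω : ω ∈ N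
    · have : (fun t => W' t ω) = w := by funext t; exact h1 t ω hω
      rw [this]; exact hw
    · have : (fun t => W' t ω) = fun t => W t ω := by funext t; exact h2 t ω hω
      rw [this]; exact hW.cont ω
  · intro s t hs hst
    exact (hW.gauss s t hs hst).congr (hincr s t)
  · intro s t hs hst
    have h1 := hW.indep s t hs hst
    rw [Indep_iff] at h1 ⊢
    rintro t1 _ ht1 ⟨C, hC, rfl⟩
    have h2 := h1 t1 ((fun ω => W t ω - W s ω) ⁻¹' C) ht1 ⟨C, hC, rfl⟩
    have h3 : ((fun ω => W' t ω - W' s ω) ⁻¹' C : Set Ω) =ᵐ[P]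
        ((fun ω => W t ω - W s ω) ⁻¹' C : Set Ω) := by
      filter_upwards [hincr s t] with ω hω
      apply propext
      show (W' t ω - W' s ω) ∈ C ↔ (W t ω - W s ω) ∈ C
      have : W' t ω - W' s ω = W t ω - W s ω := hω
      rw [this]
    rw [measure_congr h3, ← h2]
    exact measure_congr ((ae_eq_refl t1).inter h3)

theorem goo : S_GOO.{u} := by
  classical
  intro hpth hmsr hnul Ω mΩ P _ F W hW T hT
  set N : Set Ω := {ω | ∀ n, 0 < xs T (fun t => W t ω) n} with hN
  have hm : ∀ n, MeasurableSet[mΩ] {ω | 0 < xs T (fun t => W t ω) n} := by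
    intro n
    have h1 : Measurable (fun ω => xs T (fun t => W t ω) n) :=
      ((hmsr hpth Ω P F W hW T hT n).1).mono (hW.le _)
        (by rw [← BorelSpace.measurable_eq (α := ℝ)])
    exact measurableSet_lt measurable_const h1
  have hNm : MeasurableSet[mΩ] N := by
    rw [hN, ofPred_forall]
    exact MeasurableSet.iInter hm
  have hNP : P N = 0 := by
    have h1 : ∀ n : ℕ, P N ≤ (2 : ℝ≥0∞)⁻¹ ^ n := fun n =>
      (measure_mono (fun ω (hω : ω ∈ N) => hω n)).trans (hnul hpth hmsr Ω P F W hW T hT n)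
    have h2 : Tendsto (fun n : ℕ => (2 : ℝ≥0∞)⁻¹ ^ n) atTop (𝓝 0) :=
      ENNReal.tendsto_pow_atTop_nhds_zero_of_lt_one (by norm_num)
    exact le_antisymm (ge_of_tendsto' h2 h1) bot_le
  obtain ⟨h1, h2⟩ := cb_modify P F W hW N hNm hNP (fun _ => 0) continuous_const
    (fun t ω => if ω ∈ N then 0 else W t ω) (fun t ω hω => if_pos hω) (fun t ω hω => if_neg hω)
  refine ⟨_, h1, h2, fun ω => ?_⟩
  by_cases hω : ω ∈ N
  · refine ⟨1, ?_⟩
    simp only [if_pos hω]
    have h3 := hpth T hT (fun _ => 0) continuous_const 0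
    have h4 := hpth T hT (fun _ => 0) continuous_const 1
    by_contra hne
    have h5 : 0 < xs T (fun _ => 0) (0 + 1) := lt_of_le_of_ne h4.1 (Ne.symm hne)
    have h6 := (h3.2.2.2.2.1 h5).2.2
    simp only [sub_self, mul_zero] at h6
    exact absurd h5 (not_lt.2 h6)
  · simp only [if_neg hω]
    rw [hN, mem_ofPred_eq, not_forall] at hω
    obtain ⟨n, hn⟩ := hω
    exact ⟨n, le_antisymm (not_lt.1 hn) (hpth T hT (fun t => W t ω) (hW.cont ω) n).1⟩

end Q121.BZ
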