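import Pool.Agent.Q295.BZ.Stm

/-!
# Project BZ: the sum of functions with geometric `L^p` norms is in all `L^p`
-/

set_option autoImplicit false

open MeasureTheory ProbabilityTheory Set Filter
open scoped NNReal ENNReal Topology Real

universe u

namespace Q121.BZ

theorem lps : Pool.Agent.Q295.BZ.S_LPS.{u} := by
  intro Ω mΩ P _ f hf hf0 hfin hb
  have hsm : ∀ ω, Summable fun n => f n ω := by
    intro ω
    obtain ⟨N, hN⟩ := hfin ω
    refine summable_of_ne_finset_zero (s := Finset.range N) fun n hn => hN n ?_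
    simpa using hn
  have hlim : ∀ ω, Tendsto (fun n => ∑ k ∈ Finset.range n, f k ω) atTop (𝓝 (∑' n, f n ω)) :=
    fun ω => (hsm ω).hasSum.tendsto_sum_nat
  have hpm : ∀ n, Measurable fun ω => ∑ k ∈ Finset.range n, f k ω := fun n =>
    Finset.measurable_fun_sum _ fun k _ => hf k
  have hmeas : Measurable fun ω => ∑' n, f n ω :=
    measurable_of_tendsto_metrizable hpm (tendsto_pi_nhds.2 hlim)
  refine ⟨hmeas, fun p => ?_⟩
  rcases Nat.eq_zero_or_pos p with rfl | hp
  · simp only [pow_zero]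
    exact integrable_const _
  obtain ⟨C, ρ, hC, hρ0, hρ1, hbd⟩ := hb p hp
  have hp0 : (0 : ℝ) < p := by exact_mod_cast hp
  have hpe : (p : ℝ≥0∞) ≠ 0 := by exact_mod_cast hp.ne'
  have h1 : ∀ n, eLpNorm (f n) p P ≤
      ENNReal.ofReal (C ^ (1 / (p : ℝ))) * ENNReal.ofReal (ρ ^ (1 / (p : ℝ))) ^ n := by
    intro n
    rw [eLpNorm_eq_lintegral_rpow_enorm_toReal hpe (ENNReal.natCast_ne_top p)]
    have e1 : ∀ ω, ‖f n ω‖ₑ ^ ((p : ℝ≥0∞).toReal) = ENNReal.ofReal (f n ω ^ p) := by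
      intro ω
      rw [ENNReal.toReal_natCast, ENNReal.rpow_natCast, Real.enorm_eq_ofReal (hf0 n ω),
        ENNReal.ofReal_pow (hf0 n ω)]
    simp only [e1]
    rw [ENNReal.toReal_natCast]
    refine (ENNReal.rpow_le_rpow (hbd n) (by positivity)).trans (le_of_eq ?_)
    rw [ENNReal.ofReal_rpow_of_nonneg (by positivity) (by positivity),
      Real.mul_rpow hC (pow_nonneg hρ0 n), ENNReal.ofReal_mul (by positivity),
      ← ENNReal.ofReal_pow (by positivity), ← Real.rpow_natCast, ← Real.rpow_natCast,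
      ← Real.rpow_mul hρ0, ← Real.rpow_mul hρ0, mul_comm (n : ℝ)]
  set K : ℝ≥0∞ := ∑' n : ℕ, ENNReal.ofReal (C ^ (1 / (p : ℝ))) *
    ENNReal.ofReal (ρ ^ (1 / (p : ℝ))) ^ n with hK
  have hKfin : K < ∞ := by
    rw [hK, ENNReal.tsum_mul_left, ENNReal.tsum_geometric]
    refine ENNReal.mul_lt_top ENNReal.ofReal_lt_top (ENNReal.inv_lt_top.2 ?_)
    rw [tsub_pos_iff_lt, ← ENNReal.ofReal_one]
    exact (ENNReal.ofReal_lt_ofReal_iff one_pos).2 (Real.rpow_lt_one hρ0 hρ1 (by positivity))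
  have h2 : ∀ n, eLpNorm (fun ω => ∑ k ∈ Finset.range n, f k ω) p P ≤ K := by
    intro n
    have e2 : (fun ω => ∑ k ∈ Finset.range n, f k ω) = ∑ k ∈ Finset.range n, f k := by
      ext ω
      simp
    rw [e2]
    refine (eLpNorm_sum_le (fun k _ => (hf k).aestronglyMeasurable) (by exact_mod_cast hp)).trans ?_
    exact (Finset.sum_le_sum fun k _ => h1 k).trans (ENNReal.sum_le_tsum _)
  have h3 : eLpNorm (fun ω => ∑' n, f n ω) p P ≤ K := by
    refine (Lp.eLpNorm_lim_le_liminf_eLpNorm (fun n => (hpm n).aestronglyMeasurable) _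
      (Eventually.of_forall hlim)).trans ?_
    exact liminf_le_of_le (by isBoundedDefault) fun b hb => by
      obtain ⟨n, hn⟩ := hb.exists
      exact hn.trans (h2 n)
  have h4 : MemLp (fun ω => ∑' n, f n ω) p P :=
    ⟨hmeas.aestronglyMeasurable, h3.trans_lt hKfin⟩
  have h5 := h4.integrable_norm_pow hp.ne'
  refine h5.congr (Eventually.of_forall fun ω => ?_)
  simp only
  rw [Real.norm_of_nonneg (tsum_nonneg fun n => hf0 n ω)]

end Q121.BZ
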