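import Pool.Agent.Q295.BZ.Stm

/-!
# Project BZ: moment bound for `ff`
-/

set_option autoImplicit false

open MeasureTheory ProbabilityTheory Set Filter
open scoped NNReal ENNReal Topology Real

universe u

namespace Q121.BZ

open Pool.Agent.Q295.BZ
open Pool.Agent.Helper807.BS (tt tt_lt_succ tt_nonneg)

theorem dl_eq (T : ℝ) (n : ℕ) : dl T n = T * (1 / 2) ^ (n + 1) := by
  unfold dl tt
  ring

theorem dl_pos {T : ℝ} (hT : 0 < T) (n : ℕ) : 0 < dl T n := by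
  rw [dl_eq]
  positivity

theorem dl_le {T : ℝ} (hT : 0 < T) (n : ℕ) : dl T n ≤ T := by
  rw [dl_eq]
  have : (1 / 2 : ℝ) ^ (n + 1) ≤ 1 := pow_le_one₀ (by norm_num) (by norm_num)
  nlinarith

theorem dl_pred (T : ℝ) (n : ℕ) : dl T n = 2 * dl T (n + 1) := by
  rw [dl_eq, dl_eq]
  ring

/-- the pointwise inequality -/
theorem ptw {x S d r : ℝ} (p : ℕ) (hx : 0 ≤ x) (hS : 0 ≤ S) (hd : 0 < d) (hr : 0 < r) :
    ((1 + x / d) * (S + d)) ^ p ≤ 1 / 2 * r⁻¹ + (1 / 2 * r * 2 ^ (4 * p) * d ^ (2 * p) +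
      1 / 4 * r * 2 ^ (4 * p) * (d ^ (2 * p))⁻¹ * x ^ (4 * p) +
      1 / 4 * r * 2 ^ (4 * p) * (d ^ (2 * p))⁻¹ * S ^ (4 * p)) := by
  have hD : 0 < d ^ (2 * p) := by positivity
  set U : ℝ := 1 + x / d with hU
  set V : ℝ := S + d with hV
  have hU0 : 0 ≤ U := by positivity
  have hV0 : 0 ≤ V := by positivity
  have e1 : (U * V) ^ p ≤ 1 / 2 * r⁻¹ + 1 / 2 * r * ((U * V) ^ p) ^ 2 := by
    have h : 0 ≤ r⁻¹ * (1 - r * (U * V) ^ p) ^ 2 := by positivity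
    have h2 : r⁻¹ * (1 - r * (U * V) ^ p) ^ 2 =
        r⁻¹ - 2 * (U * V) ^ p + r * ((U * V) ^ p) ^ 2 := by
      field_simp
      ring
    rw [h2] at h
    linarith
  have e2 : ((U * V) ^ p) ^ 2 ≤ 1 / 2 * (d ^ (2 * p) * U ^ (4 * p) +
      (d ^ (2 * p))⁻¹ * V ^ (4 * p)) := by
    have h : 0 ≤ (d ^ (2 * p))⁻¹ * (d ^ (2 * p) * U ^ (2 * p) - V ^ (2 * p)) ^ 2 := by positivity
    have h2 : (d ^ (2 * p))⁻¹ * (d ^ (2 * p) * U ^ (2 * p) - V ^ (2 * p)) ^ 2 =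
        d ^ (2 * p) * U ^ (4 * p) - 2 * ((U * V) ^ p) ^ 2 + (d ^ (2 * p))⁻¹ * V ^ (4 * p) := by
      have h3 : U ^ (4 * p) = (U ^ (2 * p)) ^ 2 := by rw [← pow_mul]; congr 1; ring
      have h4 : V ^ (4 * p) = (V ^ (2 * p)) ^ 2 := by rw [← pow_mul]; congr 1; ring
      have h5 : ((U * V) ^ p) ^ 2 = U ^ (2 * p) * V ^ (2 * p) := by
        rw [mul_pow, mul_pow, ← pow_mul, ← pow_mul, mul_comm p 2]
      rw [h3, h4, h5]
      field_simp
      ring
    rw [h2] at h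
    linarith
  have e3 : U ^ (4 * p) ≤ 2 ^ (4 * p) * (1 + (d ^ (4 * p))⁻¹ * x ^ (4 * p)) := by
    refine (add_pow_le zero_le_one (by positivity) (4 * p)).trans ?_
    rw [one_pow, div_pow, div_eq_inv_mul]
    gcongr
    · norm_num
    · omega
  have e4 : V ^ (4 * p) ≤ 2 ^ (4 * p) * (S ^ (4 * p) + d ^ (4 * p)) := by
    refine (add_pow_le hS hd.le (4 * p)).trans ?_
    gcongr
    · norm_num
    · omega
  have e5 : d ^ (2 * p) * U ^ (4 * p) + (d ^ (2 * p))⁻¹ * V ^ (4 * p) ≤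
      d ^ (2 * p) * (2 ^ (4 * p) * (1 + (d ^ (4 * p))⁻¹ * x ^ (4 * p))) +
      (d ^ (2 * p))⁻¹ * (2 ^ (4 * p) * (S ^ (4 * p) + d ^ (4 * p))) := by gcongr
  have e6 : d ^ (2 * p) * (2 ^ (4 * p) * (1 + (d ^ (4 * p))⁻¹ * x ^ (4 * p))) +
      (d ^ (2 * p))⁻¹ * (2 ^ (4 * p) * (S ^ (4 * p) + d ^ (4 * p))) =
      2 ^ (4 * p) * (2 * d ^ (2 * p) + (d ^ (2 * p))⁻¹ * x ^ (4 * p) +
        (d ^ (2 * p))⁻¹ * S ^ (4 * p)) := by
    have h3 : d ^ (4 * p) = (d ^ (2 * p)) ^ 2 := by rw [← pow_mul]; congr 1; ring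
    rw [h3]
    field_simp
    ring
  calc (U * V) ^ p ≤ 1 / 2 * r⁻¹ + 1 / 2 * r * ((U * V) ^ p) ^ 2 := e1
    _ ≤ 1 / 2 * r⁻¹ + 1 / 2 * r * (1 / 2 * (2 ^ (4 * p) * (2 * d ^ (2 * p) +
        (d ^ (2 * p))⁻¹ * x ^ (4 * p) + (d ^ (2 * p))⁻¹ * S ^ (4 * p)))) := by
        gcongr
        exact e2.trans (mul_le_mul_of_nonneg_left (e5.trans e6.le) (by norm_num))
    _ = _ := by ring

theorem sqrt_pow {x : ℝ} (hx : 0 ≤ x) (p : ℕ) : √x ^ (4 * p) = x ^ (2 * p) := by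
  have h : 4 * p = 2 * (2 * p) := by ring
  rw [h, pow_mul, Real.sq_sqrt hx]

theorem mom : S_MOM.{u} := by
  intro hpth hmsr hnul hmax Ω mΩ P _ F W hW T hT
  have hxm : ∀ n, Measurable fun ω => xs T (fun t => W t ω) n := fun n =>
    ((hmsr hpth Ω P F W hW T hT n).1).mono (hW.le _)
      (by rw [← BorelSpace.measurable_eq (α := ℝ)])
  have hx0 : ∀ n ω, 0 ≤ xs T (fun t => W t ω) n := fun n ω =>
    (hpth T hT (fun t => W t ω) (hW.cont ω) n).1
  obtain ⟨_, hmax0⟩ := hmax 0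
  have hSm : ∀ n, Measurable (SM W (tt T n) (tt T (n + 1))) := fun n =>
    (hmax0 Ω P F W hW _ _ (tt_nonneg T hT n) (tt_lt_succ T hT n)).1
  have hS1 : ∀ n ω, ∀ r ∈ Icc (tt T n) (tt T (n + 1)), |W r ω - W (tt T n) ω| ≤
      SM W (tt T n) (tt T (n + 1)) ω := fun n =>
    (hmax0 Ω P F W hW _ _ (tt_nonneg T hT n) (tt_lt_succ T hT n)).2.1
  have hS0 : ∀ n ω, 0 ≤ SM W (tt T n) (tt T (n + 1)) ω := fun n =>
    (hmax0 Ω P F W hW _ _ (tt_nonneg T hT n) (tt_lt_succ T hT n)).2.2.1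
  have hAm : ∀ n, MeasurableSet {ω | 0 < xs T (fun t => W t ω) n} := fun n =>
    measurableSet_lt measurable_const (hxm n)
  have hff0 : ∀ n ω, 0 ≤ ff T W n ω := by
    intro n ω
    unfold ff
    split_ifs with h
    · have h1 := hS0 n ω
      have h2 := dl_pos hT n
      positivity
    · exact le_rfl
  refine ⟨fun n => ?_, hff0, fun p hp => ?_⟩
  · unfold ff
    exact Measurable.ite (hAm n) ((measurable_const.add ((hxm n).div_const _)).mul
      ((hSm n).add_const _)) measurable_const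
  obtain ⟨C₀, hC₀⟩ := hmax (4 * p)
  set C : ℝ := |C₀| with hC
  have hC0 : 0 ≤ C := abs_nonneg _
  have hSq : ∀ n, ∫⁻ ω, ENNReal.ofReal (SM W (tt T n) (tt T (n + 1)) ω ^ (4 * p)) ∂P ≤
      ENNReal.ofReal (C * dl T n ^ (2 * p)) := by
    intro n
    refine ((hC₀ Ω P F W hW _ _ (tt_nonneg T hT n) (tt_lt_succ T hT n)).2.2.2).trans ?_
    rw [sqrt_pow (sub_nonneg.2 (tt_lt_succ T hT n).le)]
    refine ENNReal.ofReal_le_ofReal (mul_le_mul_of_nonneg_right (le_abs_self _) ?_)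
    exact pow_nonneg (sub_nonneg.2 (tt_lt_succ T hT n).le) _
  obtain ⟨K, hK0, hK⟩ : ∃ K : ℝ, 0 ≤ K ∧ ∀ n,
      ∫⁻ ω, ENNReal.ofReal (xs T (fun t => W t ω) n ^ (4 * p)) ∂P ≤
        ENNReal.ofReal (K * dl T n ^ (2 * p)) := by
    refine ⟨(dl T 0 ^ (2 * p))⁻¹ + π ^ (4 * p) * (C * 2 ^ (2 * p)), ?_, fun n => ?_⟩
    · have := dl_pos hT 0
      have := Real.pi_pos
      positivity
    rcases n with _ | n
    · have h1 : ∀ ω, xs T (fun t => W t ω) 0 = 1 := fun ω => rfl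
      simp only [h1, one_pow, lintegral_const, measure_univ, mul_one]
      refine ENNReal.ofReal_le_ofReal ?_
      have h2 := dl_pos hT 0
      have h3 : 0 < dl T 0 ^ (2 * p) := by positivity
      have h4 : (dl T 0 ^ (2 * p))⁻¹ * dl T 0 ^ (2 * p) = 1 := inv_mul_cancel₀ h3.ne'
      rw [add_mul, h4]
      have := Real.pi_pos
      have : 0 ≤ π ^ (4 * p) * (C * 2 ^ (2 * p)) * dl T 0 ^ (2 * p) := by positivity
      linarith
    · have h1 : ∀ ω, xs T (fun t => W t ω) (n + 1) ≤ π * SM W (tt T n) (tt T (n + 1)) ω := by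
        intro ω
        rcases (hx0 (n + 1) ω).eq_or_lt with h | h
        · rw [← h]
          exact mul_nonneg Real.pi_pos.le (hS0 n ω)
        · refine ((hpth T hT (fun t => W t ω) (hW.cont ω) n).2.2.2.2.1 h).2.2.trans ?_
          refine mul_le_mul_of_nonneg_left ?_ Real.pi_pos.le
          exact (le_abs_self _).trans (hS1 n ω _ ⟨(tt_lt_succ T hT n).le, le_rfl⟩)
      have h2 : ∀ ω, ENNReal.ofReal (xs T (fun t => W t ω) (n + 1) ^ (4 * p)) ≤
          ENNReal.ofReal (π ^ (4 * p)) *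
            ENNReal.ofReal (SM W (tt T n) (tt T (n + 1)) ω ^ (4 * p)) := by
        intro ω
        rw [← ENNReal.ofReal_mul (by have := Real.pi_pos; positivity), ← mul_pow]
        exact ENNReal.ofReal_le_ofReal (pow_le_pow_left₀ (hx0 _ ω) (h1 ω) _)
      refine (lintegral_mono h2).trans ?_
      rw [lintegral_const_mul _ (((hSm n).pow_const _).ennreal_ofReal)]
      refine (mul_le_mul' le_rfl (hSq n)).trans ?_
      rw [← ENNReal.ofReal_mul (by have := Real.pi_pos; positivity)]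
      refine ENNReal.ofReal_le_ofReal ?_
      rw [dl_pred T n, mul_pow]
      have h3 := dl_pos hT (n + 1)
      have h4 := dl_pos hT 0
      have h5 : 0 ≤ (dl T 0 ^ (2 * p))⁻¹ * dl T (n + 1) ^ (2 * p) := by positivity
      calc π ^ (4 * p) * (C * (2 ^ (2 * p) * dl T (n + 1) ^ (2 * p)))
          = π ^ (4 * p) * (C * 2 ^ (2 * p)) * dl T (n + 1) ^ (2 * p) := by ring
        _ ≤ _ := by rw [add_mul]; linarith
  set ρ : ℝ := √(1 / 2) with hρ
  have hρ0 : 0 < ρ := Real.sqrt_pos.2 (by norm_num)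
  have hρ1 : ρ < 1 := by
    rw [hρ, Real.sqrt_lt' one_pos]
    norm_num
  have hρ2 : ρ ^ 2 = 1 / 2 := Real.sq_sqrt (by norm_num)
  refine ⟨1 + 2 ^ (4 * p) * (T ^ (2 * p) + K + C), ρ, by positivity, hρ0.le, hρ1, fun n => ?_⟩
  have hd := dl_pos hT n
  set A : Set Ω := {ω | 0 < xs T (fun t => W t ω) n} with hA
  set a : ℝ := 1 / 2 * (ρ ^ n)⁻¹ with ha
  set c1 : ℝ := 1 / 2 * ρ ^ n * 2 ^ (4 * p) * dl T n ^ (2 * p) with hc1
  set c2 : ℝ := 1 / 4 * ρ ^ n * 2 ^ (4 * p) * (dl T n ^ (2 * p))⁻¹ with hc2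
  have ha0 : 0 ≤ a := by positivity
  have hc10 : 0 ≤ c1 := by positivity
  have hc20 : 0 ≤ c2 := by positivity
  have hpt : ∀ ω, ENNReal.ofReal (ff T W n ω ^ p) ≤
      ENNReal.ofReal a * A.indicator 1 ω + (ENNReal.ofReal c1 +
        ENNReal.ofReal c2 * ENNReal.ofReal (xs T (fun t => W t ω) n ^ (4 * p)) +
        ENNReal.ofReal c2 * ENNReal.ofReal (SM W (tt T n) (tt T (n + 1)) ω ^ (4 * p))) := by
    intro ω
    by_cases hω : ω ∈ A
    · have h1 : ff T W n ω = (1 + xs T (fun t => W t ω) n / dl T n) *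
          (SM W (tt T n) (tt T (n + 1)) ω + dl T n) := if_pos hω
      rw [indicator_of_mem hω, Pi.one_apply, mul_one, h1, ← ENNReal.ofReal_mul hc20,
        ← ENNReal.ofReal_mul hc20, ← ENNReal.ofReal_add hc10 (mul_nonneg hc20
        (pow_nonneg (hx0 n ω) _)), ← ENNReal.ofReal_add (add_nonneg hc10 (mul_nonneg hc20
        (pow_nonneg (hx0 n ω) _))) (mul_nonneg hc20 (pow_nonneg (hS0 n ω) _)),
        ← ENNReal.ofReal_add ha0 (add_nonneg (add_nonneg hc10 (mul_nonneg hc20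
        (pow_nonneg (hx0 n ω) _))) (mul_nonneg hc20 (pow_nonneg (hS0 n ω) _)))]
      exact ENNReal.ofReal_le_ofReal (ptw p (hx0 n ω) (hS0 n ω) hd (by positivity))
    · have h1 : ff T W n ω = 0 := if_neg hω
      rw [h1, zero_pow (by omega), ENNReal.ofReal_zero]
      exact bot_le
  have hxi : Measurable fun ω => ENNReal.ofReal (xs T (fun t => W t ω) n ^ (4 * p)) :=
    ((hxm n).pow_const _).ennreal_ofReal
  have hSi : Measurable fun ω => ENNReal.ofReal (SM W (tt T n) (tt T (n + 1)) ω ^ (4 * p)) :=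
    ((hSm n).pow_const _).ennreal_ofReal
  have hPA : P A ≤ ENNReal.ofReal ((ρ ^ n) ^ 2) := by
    refine (hnul hpth hmsr Ω P F W hW T hT n).trans (le_of_eq ?_)
    rw [← pow_mul, mul_comm, pow_mul, hρ2, ENNReal.ofReal_pow (by norm_num), one_div,
      ENNReal.ofReal_inv_of_pos (by norm_num)]
    norm_num
  have hI : ∫⁻ ω, ENNReal.ofReal (ff T W n ω ^ p) ∂P ≤ ENNReal.ofReal a * P A +
      (ENNReal.ofReal c1 + ENNReal.ofReal c2 * ENNReal.ofReal (K * dl T n ^ (2 * p)) +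
        ENNReal.ofReal c2 * ENNReal.ofReal (C * dl T n ^ (2 * p))) := by
    refine (lintegral_mono hpt).trans ?_
    have m1 : Measurable fun ω => ENNReal.ofReal a * A.indicator (1 : Ω → ℝ≥0∞) ω :=
      Measurable.const_mul (measurable_one.indicator (hAm n)) _
    have m2 : Measurable fun ω => ENNReal.ofReal c1 +
        ENNReal.ofReal c2 * ENNReal.ofReal (xs T (fun t => W t ω) n ^ (4 * p)) :=
      measurable_const.add (hxi.const_mul _)
    rw [lintegral_add_left m1, lintegral_add_left m2,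
      lintegral_add_left measurable_const, lintegral_const_mul _ hxi, lintegral_const_mul _ hSi,
      lintegral_const_mul _ (measurable_one.indicator (hAm n)), lintegral_indicator_one (hAm n),
      lintegral_const, measure_univ, mul_one]
    exact add_le_add le_rfl (add_le_add (add_le_add le_rfl (mul_le_mul' le_rfl (hK n)))
      (mul_le_mul' le_rfl (hSq n)))
  refine hI.trans ((add_le_add (mul_le_mul' le_rfl hPA) le_rfl).trans ?_)
  rw [← ENNReal.ofReal_mul ha0, ← ENNReal.ofReal_mul hc20, ← ENNReal.ofReal_mul hc20,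
    ← ENNReal.ofReal_add hc10 (by positivity), ← ENNReal.ofReal_add (by positivity)
    (by positivity), ← ENNReal.ofReal_add (by positivity) (by positivity)]
  refine ENNReal.ofReal_le_ofReal ?_
  have hr0 : 0 < ρ ^ n := by positivity
  have hD : 0 < dl T n ^ (2 * p) := by positivity
  have hDT : dl T n ^ (2 * p) ≤ T ^ (2 * p) := pow_le_pow_left₀ hd.le (dl_le hT n) _
  have e1 : a * (ρ ^ n) ^ 2 = 1 / 2 * ρ ^ n := by
    rw [ha]
    field_simp
  have e2 : c2 * (K * dl T n ^ (2 * p)) = 1 / 4 * ρ ^ n * 2 ^ (4 * p) * K := by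
    rw [hc2]
    field_simp
  have e3 : c2 * (C * dl T n ^ (2 * p)) = 1 / 4 * ρ ^ n * 2 ^ (4 * p) * C := by
    rw [hc2]
    field_simp
  have e4 : c1 ≤ 1 / 2 * ρ ^ n * 2 ^ (4 * p) * T ^ (2 * p) := by
    rw [hc1]
    gcongr
  rw [e1, e2, e3]
  have h1 : 0 ≤ ρ ^ n * 2 ^ (4 * p) * T ^ (2 * p) := by positivity
  have h2 : 0 ≤ ρ ^ n * 2 ^ (4 * p) * K := by positivity
  have h3 : 0 ≤ ρ ^ n * 2 ^ (4 * p) * C := by positivity
  nlinarith [h1, h2, h3, e4, hr0]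

end Q121.BZ
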