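import Pool.Agent.Q295.BZ.Stm

/-!
# Project BZ: measurability of `xs` and of the stopping times `sg`
-/

set_option autoImplicit false

open MeasureTheory ProbabilityTheory Set Filter
open scoped NNReal ENNReal Topology Real

universe u

namespace Q121.BZ

open Pool.Agent.Q295.BZ
open Pool.Agent.Helper807.BS (tt tt_lt_succ tt_nonneg)

theorem measurable_mu (T : ℝ) (n : ℕ) : Measurable fun x : ℝ => ((mu T n x : ℕ) : ℝ) := by
  unfold mu
  exact (measurable_from_nat (f := fun k : ℕ => (k : ℝ))).comp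
    (Nat.measurable_ceil.comp (measurable_id.div_const _))

theorem meas_pos {Ω : Type u} [MeasurableSpace Ω] (T : ℝ) (n : ℕ) (a s : ℝ) (has : a ≤ s)
    (x : Ω → ℝ) (hx : Measurable x) (V : ℝ → Ω → ℝ) (hV : ∀ r ∈ Icc a s, Measurable (V r))
    (hc : ∀ ω, Continuous fun r => V r ω) :
    MeasurableSet {ω | ∀ r ∈ Icc a s,
      0 < x ω + π * (V r ω - V a ω) - 4 * π * mu T n (x ω) * (r - a)} := by
  obtain ⟨D, hDc, hDd⟩ := TopologicalSpace.exists_countable_dense (Icc a s)
  have hXc : ∀ ω, Continuous fun r : Icc a s =>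
      x ω + π * (V r ω - V a ω) - 4 * π * mu T n (x ω) * ((r : ℝ) - a) := by
    intro ω
    have := (hc ω).comp (continuous_subtype_val (p := fun r => r ∈ Icc a s))
    simp only [Function.comp_def] at this
    fun_prop
  have heq : {ω | ∀ r ∈ Icc a s,
      0 < x ω + π * (V r ω - V a ω) - 4 * π * mu T n (x ω) * (r - a)} =
      ⋃ k : ℕ, ⋂ r ∈ D, {ω | 1 / ((k : ℝ) + 1) ≤
        x ω + π * (V r ω - V a ω) - 4 * π * mu T n (x ω) * ((r : ℝ) - a)} := by
    ext ω
    simp only [mem_ofPred_eq, mem_iUnion, mem_iInter]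
    constructor
    · intro h
      obtain ⟨r₀, _, hr₀⟩ := isCompact_univ.exists_isMinOn
        (⟨⟨a, le_rfl, has⟩, mem_univ _⟩ : (univ : Set (Icc a s)).Nonempty) (hXc ω).continuousOn
      obtain ⟨k, hk⟩ := exists_nat_one_div_lt (h r₀ r₀.2)
      exact ⟨k, fun r _ => hk.le.trans (hr₀ (mem_univ r))⟩
    · rintro ⟨k, hk⟩ r hr
      have h1 : IsClosed {r : Icc a s | 1 / ((k : ℝ) + 1) ≤
          x ω + π * (V r ω - V a ω) - 4 * π * mu T n (x ω) * ((r : ℝ) - a)} :=
        isClosed_le continuous_const (hXc ω)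
      have h2 : (⟨r, hr⟩ : Icc a s) ∈ closure D := by
        rw [hDd.closure_eq]
        exact mem_univ _
      have h3 := (h1.closure_subset_iff.2 fun r hr => hk r hr) h2
      have h4 : (0 : ℝ) < 1 / ((k : ℝ) + 1) := by positivity
      exact lt_of_lt_of_le h4 h3
  rw [heq]
  refine MeasurableSet.iUnion fun k => MeasurableSet.biInter hDc fun r _ => ?_
  refine measurableSet_le measurable_const ?_
  have h1 := hV r r.2
  have h2 := hV a ⟨le_rfl, has⟩
  have h3 := (measurable_mu T n).comp hx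
  simp only [Function.comp_def] at h3
  exact (hx.add ((h1.sub h2).const_mul π)).sub ((h3.const_mul (4 * π)).mul_const _)

theorem meas_stop {Ω : Type u} [MeasurableSpace Ω] (b : ℝ) (hb : 0 ≤ b) (V : ℝ → Ω → ℝ)
    (hV : ∀ r, 0 ≤ r → r ≤ b → Measurable (V r)) (hc : ∀ ω, Continuous fun r => V r ω)
    (σ : Ω → ℝ) (hσ : Measurable σ) (hσ0 : ∀ ω, 0 ≤ σ ω ∧ σ ω ≤ b) :
    Measurable fun ω => V (σ ω) ω := by
  have h1 : Measurable (Function.uncurry fun (r : ℝ) (ω : Ω) => V (max 0 (min r b)) ω) := by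
    refine measurable_uncurry_of_continuous_of_measurable (fun ω => ?_) (fun r => ?_)
    · exact (hc ω).comp (continuous_const.max (continuous_id.min continuous_const))
    · exact hV _ (le_max_left _ _) (max_le hb (min_le_right _ _))
  have h2 := h1.comp (hσ.prodMk measurable_id)
  have h3 : (fun ω => V (σ ω) ω) =
      (Function.uncurry fun (r : ℝ) (ω : Ω) => V (max 0 (min r b)) ω) ∘ fun ω => (σ ω, id ω) := by
    funext ω
    simp only [Function.comp_apply, Function.uncurry_apply_pair, id]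
    rw [min_eq_left (hσ0 ω).2, max_eq_right (hσ0 ω).1]
  rw [h3]
  exact h2

theorem meas_step {Ω : Type u} [MeasurableSpace Ω] (T : ℝ) (n : ℕ) (a b : ℝ) (ha : 0 ≤ a)
    (hab : a ≤ b) (V : ℝ → Ω → ℝ) (hV : ∀ r, 0 ≤ r → r ≤ b → Measurable (V r))
    (hc : ∀ ω, Continuous fun r => V r ω) (x : Ω → ℝ) (hx : Measurable x)
    (σ : Ω → ℝ) (hσ0 : ∀ ω, a ≤ σ ω ∧ σ ω ≤ b)
    (hσ : ∀ s, a ≤ s → s < b → MeasurableSet {ω | s < σ ω}) :
    Measurable fun ω => x ω + π * (V (σ ω) ω - V a ω) - 4 * π * mu T n (x ω) * (σ ω - a) := by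
  have hσm : Measurable σ := by
    refine measurable_of_Ioi fun s => ?_
    by_cases h1 : s < a
    · have : σ ⁻¹' Ioi s = univ := by
        ext ω
        simp only [mem_preimage, mem_Ioi, mem_univ, iff_true]
        exact lt_of_lt_of_le h1 (hσ0 ω).1
      rw [this]
      exact MeasurableSet.univ
    · by_cases h2 : s < b
      · exact hσ s (not_lt.1 h1) h2
      · have : σ ⁻¹' Ioi s = ∅ := by
          ext ω
          simp only [mem_preimage, mem_Ioi, mem_empty_iff_false, iff_false, not_lt]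
          exact (hσ0 ω).2.trans (not_lt.1 h2)
        rw [this]
        exact MeasurableSet.empty
  have h1 := meas_stop b (ha.trans hab) V hV hc σ hσm fun ω => ⟨ha.trans (hσ0 ω).1, (hσ0 ω).2⟩
  have h2 := hV a ha hab
  have h3 := (measurable_mu T n).comp hx
  simp only [Function.comp_def] at h3
  exact (hx.add ((h1.sub h2).const_mul π)).sub ((h3.const_mul (4 * π)).mul (hσm.sub_const a))

theorem msr : S_MSR.{u} := by
  intro hpth Ω mΩ P _ F W hW T hT
  have hb : ∀ n, (Measurable[F (tt T n), borel ℝ] fun ω => xs T (fun t => W t ω) n) →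
      ∀ s : ℝ, 0 ≤ s → MeasurableSet[F s] {ω | s < sg T (fun t => W t ω) n} := by
    intro n hx s hs
    by_cases h1 : s < tt T n
    · have : {ω | s < sg T (fun t => W t ω) n} = univ := by
        ext ω
        simp only [mem_ofPred_eq, mem_univ, iff_true]
        exact lt_of_lt_of_le h1 (hpth T hT (fun t => W t ω) (hW.cont ω) n).2.1
      rw [this]
      exact @MeasurableSet.univ Ω (F s)
    · by_cases h2 : s < tt T (n + 1)
      · have h3 : {ω | s < sg T (fun t => W t ω) n} = {ω | ∀ r ∈ Icc (tt T n) s,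
            0 < xs T (fun t => W t ω) n + π * (W r ω - W (tt T n) ω) -
              4 * π * mu T n (xs T (fun t => W t ω) n) * (r - tt T n)} := by
          ext ω
          exact (hpth T hT (fun t => W t ω) (hW.cont ω) n).2.2.2.2.2 s (not_lt.1 h1) h2
        rw [h3]
        exact @meas_pos Ω (F s) T n (tt T n) s (not_lt.1 h1) _
          (hx.mono (hW.mono _ _ (not_lt.1 h1)) le_rfl) W
          (fun r hr => (hW.adapted r ((tt_nonneg T hT n).trans hr.1)).mono (hW.mono _ _ hr.2) le_rfl)
          hW.cont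
      · have : {ω | s < sg T (fun t => W t ω) n} = ∅ := by
          ext ω
          simp only [mem_ofPred_eq, mem_empty_iff_false, iff_false, not_lt]
          exact (hpth T hT (fun t => W t ω) (hW.cont ω) n).2.2.1.trans (not_lt.1 h2)
        rw [this]
        exact @MeasurableSet.empty Ω (F s)
  intro n
  have ha : Measurable[F (tt T n), borel ℝ] fun ω => xs T (fun t => W t ω) n := by
    induction n with
    | zero => exact @measurable_const _ _ (borel ℝ) (F (tt T 0)) _
    | succ n ih =>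
      have h4 := hb n ih
      have hlt := tt_lt_succ T hT n
      exact @meas_step Ω (F (tt T (n + 1))) T n (tt T n) (tt T (n + 1)) (tt_nonneg T hT n) hlt.le W
        (fun r h0 hr => (hW.adapted r h0).mono (hW.mono _ _ hr) le_rfl) hW.cont _
        (ih.mono (hW.mono _ _ hlt.le) le_rfl) (fun ω => sg T (fun t => W t ω) n)
        (fun ω => ⟨(hpth T hT (fun t => W t ω) (hW.cont ω) n).2.1,
          (hpth T hT (fun t => W t ω) (hW.cont ω) n).2.2.1⟩)
        (fun s hs1 hs2 => hW.mono _ _ hs2.le _ (h4 s ((tt_nonneg T hT n).trans hs1)))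
  exact ⟨ha, hb n ha⟩

end Q121.BZ
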