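import Pool.Agent.Q295.BZ.Stm
import Pool.Agent.Helper807.BS.LAl2

/-!
# Project BZ: the stages survive with probability at most `2^{-n}`
-/

set_option autoImplicit false

open MeasureTheory ProbabilityTheory Set Filter
open scoped NNReal ENNReal Topology Real

universe u

namespace Q121.BZ

open Pool.Agent.Q295.BZ
open Pool.Agent.Helper807.BS (tt tt_lt_succ tt_nonneg al_gauss)

theorem nul : S_NUL.{u} := by
  intro hpth hmsr Ω mΩ P _ F W hW T hT n
  induction n with
  | zero =>
    rw [pow_zero]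
    exact prob_le_one
  | succ n ih =>
    have hlt := tt_lt_succ T hT n
    have hnn := tt_nonneg T hT n
    set A : Set Ω := {ω | 0 < xs T (fun t => W t ω) n} with hA
    have hIoi : MeasurableSet[borel ℝ] (Ioi (0 : ℝ)) := by
      rw [← BorelSpace.measurable_eq (α := ℝ)]
      exact measurableSet_Ioi
    have hAm : MeasurableSet[F (tt T n)] A := (hmsr hpth Ω P F W hW T hT n).1 hIoi
    have hsub : {ω | 0 < xs T (fun t => W t ω) (n + 1)} ⊆
        A ∩ (fun ω => W (tt T (n + 1)) ω - W (tt T n) ω) ⁻¹' (Ioi 0) := by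
      intro ω hω
      obtain ⟨h1, _, h2⟩ := (hpth T hT (fun t => W t ω) (hW.cont ω) n).2.2.2.2.1 hω
      refine ⟨h1, ?_⟩
      have h3 : 0 < π * (W (tt T (n + 1)) ω - W (tt T n) ω) := lt_of_lt_of_le hω h2
      exact pos_of_mul_pos_right h3 Real.pi_pos.le
    refine (measure_mono hsub).trans ?_
    have hind := hW.indep (tt T n) (tt T (n + 1)) hnn hlt.le
    rw [Indep_iff] at hind
    rw [hind _ _ hAm ⟨Ioi 0, hIoi, rfl⟩, pow_succ]
    refine mul_le_mul' ih ?_
    have hlaw := hW.gauss (tt T n) (tt T (n + 1)) hnn hlt.le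
    have hv : (tt T (n + 1) - tt T n).toNNReal ≠ 0 := by
      rw [Ne, Real.toNNReal_eq_zero, not_le]
      linarith
    rw [← one_div, ← al_gauss _ hv, ← hlaw.map_eq, Measure.map_apply_of_aemeasurable
      hlaw.aemeasurable measurableSet_Ioi]

end Q121.BZ
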